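import Pool.Agent.L7h22.LS.Pair
import Pool.Agent.Cov.PNT

set_option autoImplicit false

/-!
# The average over the primes `p ≤ x` of `∑_{q < p} 1 / (p - q + 1)` is at least `1 - o(1)`
-/

namespace Pool.Agent.L7h22.LS

open Finset Filter Topology

/-- the primes up to `x` -/
def PX (x : ℕ) : Finset ℕ := (Icc 1 x).filter Nat.Prime

theorem PX_card (x : ℕ) : (PX x).card = Nat.primeCounting x := by
  unfold PX
  rw [Nat.primeCounting, Nat.primeCounting', Nat.count_eq_card_filter_range]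
  congr 1
  ext p
  rw [Finset.mem_filter, Finset.mem_filter, Finset.mem_Icc, Finset.mem_range]
  constructor
  · rintro ⟨⟨a, b⟩, c⟩; exact ⟨by omega, c⟩
  · rintro ⟨a, c⟩; exact ⟨⟨c.one_lt.le, by omega⟩, c⟩

theorem pnt : Tendsto (fun x : ℕ => ((PX x).card : ℝ) * Real.log x / x) atTop (𝓝 1) := by
  have h := Pool.Agent.Cov.PNT.pi_tendsto.comp (tendsto_natCast_atTop_atTop (R := ℝ))
  refine h.congr fun x => ?_
  simp only [Function.comp, Nat.floor_natCast, PX_card]

theorem avg (ε : ℝ) (hε : 0 < ε) : ∀ᶠ x : ℕ in atTop, (1 - ε) * (PX x).card ≤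
    ∑ p ∈ PX x, ∑ q ∈ (PX x).filter (fun q => q < p), 1 / ((p : ℝ) - q + 1) := by
  obtain ⟨K, hK⟩ := exists_nat_gt (4 / ε + 1)
  have hK1R : (1 : ℝ) < K := by
    have : 0 < 4 / ε := by positivity
    linarith
  have hK1 : 1 ≤ K := by
    have : 1 < K := by exact_mod_cast hK1R
    omega
  have hK0 : (0 : ℝ) < K := by linarith
  obtain ⟨c, hc⟩ : ∃ c : ℝ, c = Real.log K + Real.log (K + 5) := ⟨_, rfl⟩
  have hlog : Tendsto (fun X : ℕ => Real.log (X : ℝ)) atTop atTop :=
    Real.tendsto_log_atTop.comp tendsto_natCast_atTop_atTop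
  have h1 : Tendsto (fun x : ℕ => c / Real.log x) atTop (𝓝 0) := hlog.const_div_atTop c
  have h2 : Tendsto (fun x : ℕ => (((PX x).card : ℝ) * Real.log x / x) * (K / (K + 1)) *
      (1 - c / Real.log x) - 1 / ((K : ℝ) + 1)) atTop (𝓝 (1 * (K / (K + 1)) * (1 - 0) - 1 / ((K : ℝ) + 1))) :=
    ((pnt.mul_const _).mul (h1.const_sub 1)).sub_const _
  have h3 : 1 - ε < 1 * ((K : ℝ) / (K + 1)) * (1 - 0) - 1 / ((K : ℝ) + 1) := by
    have e : 1 * ((K : ℝ) / (K + 1)) * (1 - 0) - 1 / ((K : ℝ) + 1) = 1 - 2 / (K + 1) := by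
      field_simp; ring
    rw [e]
    have : 2 / ((K : ℝ) + 1) < ε := by
      rw [div_lt_iff₀ (by positivity)]
      have h4 : 4 / ε < K := by linarith
      rw [div_lt_iff₀ hε] at h4
      nlinarith
    linarith
  filter_upwards [h2.eventually (lt_mem_nhds h3), eventually_ge_atTop (K * K),
    eventually_ge_atTop 2] with x hx hxK hx2
  have hxR : (2 : ℝ) ≤ x := by exact_mod_cast hx2
  have hx0 : (0 : ℝ) < x := by linarith
  have hlx : 0 < Real.log x := Real.log_pos (by linarith)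
  obtain ⟨H1, hH1⟩ : ∃ H1 : ℕ, H1 = x / K := ⟨_, rfl⟩
  have hKH : K ≤ H1 := by
    rw [hH1, Nat.le_div_iff_mul_le (by omega)]
    exact hxK
  have hp := pairs_lower (PX x) x K H1 (fun p hp => by
    unfold PX at hp
    rw [Finset.mem_filter, Finset.mem_Icc] at hp
    exact hp.1.2) (by omega) hK1 hKH
  refine le_trans ?_ hp
  obtain ⟨M, hM⟩ : ∃ M : ℝ, M = (PX x).card := ⟨_, rfl⟩
  rw [← hM] at hx ⊢
  have hM0 : 0 ≤ M := by rw [hM]; positivity
  have hH1a : (H1 : ℝ) ≤ x / K := by rw [hH1]; exact Nat.cast_div_le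
  have hH1b : (x : ℝ) / K ≤ H1 + 6 := by
    have : x < K * (H1 + 1) := by
      rw [hH1]
      exact Nat.lt_mul_div_succ x (by omega)
    have h5 : (x : ℝ) < K * (H1 + 1) := by exact_mod_cast this
    rw [div_le_iff₀ hK0]
    nlinarith
  have e1 : Real.log x - c ≤ Real.log ((H1 : ℝ) + 6) - Real.log ((K : ℝ) + 5) := by
    have a := Real.log_le_log (by positivity) hH1b
    rw [Real.log_div hx0.ne' hK0.ne'] at a
    rw [hc]
    linarith
  rcases le_or_gt (Real.log x - c) 0 with hneg | hpos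
  · -- impossible case handled by the sign
    have a1 : 1 - c / Real.log x ≤ 0 := by
      have : 1 - c / Real.log x = (Real.log x - c) / Real.log x := by field_simp
      rw [this]
      exact div_nonpos_of_nonpos_of_nonneg hneg hlx.le
    have a2 : (M * Real.log x / x) * (K / (K + 1)) * (1 - c / Real.log x) ≤ 0 :=
      mul_nonpos_of_nonneg_of_nonpos (by positivity) a1
    have a3 : 0 ≤ M ^ 2 / (x + H1) := by positivity
    have a4 : 0 ≤ Real.log ((H1 : ℝ) + 6) - Real.log ((K : ℝ) + 5) := by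
      have : (K : ℝ) ≤ H1 := by exact_mod_cast hKH
      have := Real.log_le_log (show (0 : ℝ) < (K : ℝ) + 5 by positivity)
        (show (K : ℝ) + 5 ≤ (H1 : ℝ) + 6 by linarith)
      linarith
    have a5 := mul_nonneg a3 a4
    have a6 : (1 - ε) * M ≤ -(1 / ((K : ℝ) + 1)) * M := mul_le_mul_of_nonneg_right (by linarith) hM0
    have a7 : -(1 / ((K : ℝ) + 1)) * M = -(M / (K + 1)) := by ring
    linarith
  · have b1 : M ^ 2 / (x * (1 + 1 / K)) ≤ M ^ 2 / (x + H1) := by
      refine div_le_div_of_nonneg_left (by positivity) (by positivity) ?_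
      have : x * (1 + 1 / (K : ℝ)) = x + x / K := by ring
      rw [this]
      linarith
    have b2 : M ^ 2 / (x * (1 + 1 / K)) * (Real.log x - c) ≤
        M ^ 2 / (x + H1) * (Real.log ((H1 : ℝ) + 6) - Real.log ((K : ℝ) + 5)) :=
      mul_le_mul b1 e1 hpos.le (by positivity)
    have b3 : M ^ 2 / (x * (1 + 1 / K)) * (Real.log x - c) =
        ((M * Real.log x / x) * (K / (K + 1)) * (1 - c / Real.log x)) * M := by
      field_simp
    have b4 := mul_le_mul_of_nonneg_right hx.le hM0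
    have b6 : ((M * Real.log x / x) * (K / (K + 1)) * (1 - c / Real.log x) - 1 / ((K : ℝ) + 1)) * M
        = ((M * Real.log x / x) * (K / (K + 1)) * (1 - c / Real.log x)) * M - M / (K + 1) := by
      ring
    rw [b6, ← b3] at b4
    linarith

/-- `f(n) = ∑_{p < n} 1 / (n - p)` -/
noncomputable def f (n : ℕ) : ℝ := ∑ p ∈ (range n).filter Nat.Prime, 1 / ((n : ℝ) - p)

theorem f_succ (x p : ℕ) (hp : p ∈ PX x) :
    f (p + 1) = 1 + ∑ q ∈ (PX x).filter (fun q => q < p), 1 / ((p : ℝ) - q + 1) := by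
  unfold PX at hp
  rw [Finset.mem_filter, Finset.mem_Icc] at hp
  unfold f
  rw [Finset.range_add_one, Finset.filter_insert, if_pos hp.2, Finset.sum_insert (by simp)]
  have h1 : (range p).filter Nat.Prime = (PX x).filter (fun q => q < p) := by
    unfold PX
    ext q
    simp only [Finset.mem_filter, Finset.mem_range, Finset.mem_Icc]
    constructor
    · rintro ⟨a, b⟩; exact ⟨⟨⟨b.one_lt.le, by omega⟩, b⟩, a⟩
    · rintro ⟨⟨a, b⟩, c⟩; exact ⟨c, b⟩
  rw [h1]
  congr 1
  · push_cast; ring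
  · refine Finset.sum_congr rfl fun q _ => ?_
    congr 1
    push_cast
    ring

/-- the average of `f (p + 1)` over the primes is at least `2 - o(1)` -/
theorem avg2 (ε : ℝ) (hε : 0 < ε) : ∀ᶠ x : ℕ in atTop,
    (2 - ε) * (PX x).card ≤ ∑ p ∈ PX x, f (p + 1) := by
  filter_upwards [avg ε hε] with x hx
  have h1 : ∑ p ∈ PX x, f (p + 1) = ∑ p ∈ PX x,
      (1 + ∑ q ∈ (PX x).filter (fun q => q < p), 1 / ((p : ℝ) - q + 1)) :=
    Finset.sum_congr rfl fun p hp => f_succ x p hp
  rw [h1, Finset.sum_add_distrib, Finset.sum_const, nsmul_eq_mul, mul_one]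
  linarith

theorem PX_unbounded (B : ℝ) : ∀ᶠ x : ℕ in atTop, B ≤ (PX x).card := by
  have h := Nat.tendsto_primeCounting
  have h2 := (tendsto_natCast_atTop_atTop (R := ℝ)).comp h
  filter_upwards [h2.eventually (eventually_ge_atTop B)] with x hx
  rw [PX_card]
  exact hx

/-- `limsup f ≥ 2`, along the numbers `p + 1` -/
theorem freq (ε : ℝ) (hε : 0 < ε) (N : ℕ) : ∃ p : ℕ, N ≤ p ∧ p.Prime ∧ 2 - ε ≤ f (p + 1) := by
  by_contra hcon
  push Not at hcon
  obtain ⟨B, hB⟩ : ∃ B : ℝ, B = ∑ p ∈ range N, |f (p + 1)| + ∑ p ∈ range N, |2 - ε| := ⟨_, rfl⟩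
  obtain ⟨x, hx1, hx2⟩ := ((avg2 (ε / 2) (by positivity)).and
    (PX_unbounded ((B + 1) / (ε / 2)))).exists
  have h1 : ∑ p ∈ PX x, f (p + 1) ≤ ∑ p ∈ PX x, (2 - ε) + B := by
    have h2 : ∀ p ∈ PX x, f (p + 1) ≤ (2 - ε) +
        (if p < N then |f (p + 1)| + |2 - ε| else 0) := by
      intro p hp
      unfold PX at hp
      rw [Finset.mem_filter] at hp
      split_ifs with h
      · have a := le_abs_self (f (p + 1))
        have b := neg_abs_le (2 - ε)
        linarith
      · have := hcon p (by omega) hp.2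
        linarith
    refine (Finset.sum_le_sum h2).trans ?_
    rw [Finset.sum_add_distrib]
    have h3 : ∑ p ∈ PX x, (if p < N then |f (p + 1)| + |2 - ε| else 0) ≤ B := by
      rw [← Finset.sum_filter, hB, ← Finset.sum_add_distrib]
      refine Finset.sum_le_sum_of_subset_of_nonneg ?_ fun p _ _ => by positivity
      intro p hp
      rw [Finset.mem_filter] at hp
      exact Finset.mem_range.2 hp.2
    linarith
  rw [Finset.sum_const, nsmul_eq_mul] at h1
  rw [div_le_iff₀ (by positivity)] at hx2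
  nlinarith

end Pool.Agent.L7h22.LS
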