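import Mathlib

set_option autoImplicit false

/-!
# Pairs of elements of a set in short windows and the kernel `1 / (h + 1)`
-/

namespace Pool.Agent.L7h22.LS

open Finset

/-- Cauchy-Schwarz for the number of elements in windows of length `H` -/
theorem window (P : Finset ℕ) (x H : ℕ) (hP : ∀ p ∈ P, p ≤ x) :
    ((P.card : ℝ) * H) ^ 2 ≤ ((x : ℝ) + H) *
      ∑ p ∈ P, ∑ q ∈ P, ((min p q + H - max p q : ℕ) : ℝ) := by
  classical
  obtain ⟨T, hT⟩ : ∃ T : Finset ℕ, T = range (x + H) := ⟨_, rfl⟩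
  have h1 : ∀ p ∈ P, ∑ t ∈ T, (if p ≤ t ∧ t < p + H then (1 : ℝ) else 0) = H := by
    intro p hp
    rw [Finset.sum_boole]
    have : T.filter (fun t => p ≤ t ∧ t < p + H) = Ico p (p + H) := by
      ext t
      have := hP p hp
      rw [hT, Finset.mem_filter, Finset.mem_range, Finset.mem_Ico]
      omega
    rw [this, Nat.card_Ico]
    congr 1
    omega
  have h2 : ∑ t ∈ T, ∑ p ∈ P, (if p ≤ t ∧ t < p + H then (1 : ℝ) else 0) = P.card * H := by
    rw [Finset.sum_comm, Finset.sum_congr rfl h1, Finset.sum_const, nsmul_eq_mul]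
  have h3 := sq_sum_le_card_mul_sum_sq (s := T)
    (f := fun t => ∑ p ∈ P, (if p ≤ t ∧ t < p + H then (1 : ℝ) else 0))
  rw [h2] at h3
  refine h3.trans ?_
  have h4 : ((T.card : ℕ) : ℝ) = (x : ℝ) + H := by rw [hT, Finset.card_range]; push_cast; ring
  rw [h4]
  refine mul_le_mul_of_nonneg_left (le_of_eq ?_) (by positivity)
  have h5 : ∀ t ∈ T, (∑ p ∈ P, (if p ≤ t ∧ t < p + H then (1 : ℝ) else 0)) ^ 2 =
      ∑ p ∈ P, ∑ q ∈ P, (if max p q ≤ t ∧ t < min p q + H then (1 : ℝ) else 0) := by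
    intro t _
    rw [sq, Finset.sum_mul_sum]
    refine Finset.sum_congr rfl fun p _ => Finset.sum_congr rfl fun q _ => ?_
    by_cases a : p ≤ t ∧ t < p + H
    · by_cases b : q ≤ t ∧ t < q + H
      · rw [if_pos a, if_pos b, if_pos (by constructor <;> omega)]; norm_num
      · rw [if_pos a, if_neg b, if_neg (by omega)]; norm_num
    · have c : ¬ (max p q ≤ t ∧ t < min p q + H) := by omega
      rw [if_neg a, if_neg c, zero_mul]
  rw [Finset.sum_congr rfl h5, Finset.sum_comm]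
  refine Finset.sum_congr rfl fun p hp => ?_
  rw [Finset.sum_comm]
  refine Finset.sum_congr rfl fun q hq => ?_
  rw [Finset.sum_boole]
  have : T.filter (fun t => max p q ≤ t ∧ t < min p q + H) = Ico (max p q) (min p q + H) := by
    ext t
    have a := hP p hp
    have b := hP q hq
    rw [hT, Finset.mem_filter, Finset.mem_range, Finset.mem_Ico]
    omega
  rw [this, Nat.card_Ico]

/-- the weights -/
noncomputable def w (H : ℕ) : ℝ := 2 / ((H : ℝ) * (H + 1) * (H + 2))

theorem w_nonneg (H : ℕ) : 0 ≤ w H := by unfold w; positivity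

theorem kernel_eq (h m : ℕ) : ∑ H ∈ range (h + m + 1), w H * ((H - h : ℕ) : ℝ) =
    1 / ((h : ℝ) + 1) - 1 / ((h : ℝ) + m + 1) - m / (((h : ℝ) + m + 1) * (h + m + 2)) := by
  induction m with
  | zero =>
    rw [Finset.sum_eq_zero]
    · simp
    · intro H hH
      rw [Finset.mem_range] at hH
      have : H - h = 0 := by omega
      rw [this]; simp
  | succ m ih =>
    rw [show h + (m + 1) + 1 = (h + m + 1) + 1 by ring, Finset.sum_range_succ, ih]
    have e : h + m + 1 - h = m + 1 := by omega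
    rw [e]
    unfold w
    push_cast
    have a1 : ((h : ℝ) + m + 1) ≠ 0 := by positivity
    have a2 : ((h : ℝ) + m + 2) ≠ 0 := by positivity
    have a3 : ((h : ℝ) + m + 3) ≠ 0 := by positivity
    have a4 : ((h : ℝ) + 1) ≠ 0 := by positivity
    have e1 : ((h : ℝ) + m + 1 + 1) = h + m + 2 := by ring
    have e2 : ((h : ℝ) + m + 1 + 2) = h + m + 3 := by ring
    have e3 : ((h : ℝ) + (m + 1) + 1) = h + m + 2 := by ring
    have e4 : ((h : ℝ) + (m + 1) + 2) = h + m + 3 := by ring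
    rw [e1, e2, e3, e4]
    field_simp
    ring

theorem kernel_le (h : ℕ) (S : Finset ℕ) : ∑ H ∈ S, w H * ((H - h : ℕ) : ℝ) ≤ 1 / ((h : ℝ) + 1) := by
  obtain ⟨m, hm⟩ : ∃ m : ℕ, m = S.sup id := ⟨_, rfl⟩
  have h1 : S ⊆ range (h + m + 1) := by
    intro H hH
    have : H ≤ m := by rw [hm]; exact Finset.le_sup (f := id) hH
    rw [Finset.mem_range]
    omega
  refine (Finset.sum_le_sum_of_subset_of_nonneg h1 fun H _ _ =>
    mul_nonneg (w_nonneg H) (Nat.cast_nonneg _)).trans ?_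
  rw [kernel_eq]
  have : 0 ≤ 1 / ((h : ℝ) + m + 1) := by positivity
  have : 0 ≤ m / (((h : ℝ) + m + 1) * (h + m + 2)) := by positivity
  linarith

theorem diag_sum (H0 H1 : ℕ) (hH : 1 ≤ H0) (h : H0 ≤ H1) :
    ∑ H ∈ Icc H0 H1, w H * (H : ℝ) = 2 / ((H0 : ℝ) + 1) - 2 / ((H1 : ℝ) + 2) := by
  have key : ∀ H : ℕ, 1 ≤ H → w H * (H : ℝ) = 2 / ((H : ℝ) + 1) - 2 / ((H : ℝ) + 2) := by
    intro H hH
    have : (H : ℝ) ≠ 0 := by
      have : (0 : ℝ) < H := by exact_mod_cast hH
      linarith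
    have a1 : ((H : ℝ) + 1) ≠ 0 := by positivity
    have a2 : ((H : ℝ) + 2) ≠ 0 := by positivity
    unfold w
    field_simp
    ring
  induction H1, h using Nat.le_induction with
  | base => rw [Finset.Icc_self, Finset.sum_singleton, key H0 hH]
  | succ N hN ih =>
    rw [← Finset.insert_Icc_right_eq_Icc_add_one (by omega), Finset.sum_insert (by simp), ih,
      key (N + 1) (by omega)]
    push_cast
    ring_nf

theorem log_sum (H0 H1 : ℕ) (h : H0 ≤ H1) :
    Real.log ((H1 : ℝ) + 6) - Real.log ((H0 : ℝ) + 5) ≤ ∑ H ∈ Icc H0 H1, 1 / ((H : ℝ) + 5) := by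
  have key : ∀ H : ℕ, Real.log ((H : ℝ) + 6) - Real.log ((H : ℝ) + 5) ≤ 1 / ((H : ℝ) + 5) := by
    intro H
    have a1 : (0 : ℝ) < (H : ℝ) + 5 := by positivity
    have a2 : (0 : ℝ) < (H : ℝ) + 6 := by positivity
    rw [← Real.log_div a2.ne' a1.ne']
    have := Real.log_le_sub_one_of_pos (div_pos a2 a1)
    have e : ((H : ℝ) + 6) / (H + 5) - 1 = 1 / (H + 5) := by field_simp; ring
    linarith
  induction H1, h using Nat.le_induction with
  | base => rw [Finset.Icc_self, Finset.sum_singleton]; exact key H0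
  | succ N hN ih =>
    rw [← Finset.insert_Icc_right_eq_Icc_add_one (by omega), Finset.sum_insert (by simp)]
    have := key (N + 1)
    push_cast at this ⊢
    have e : (N : ℝ) + 1 + 5 = N + 6 := by ring
    rw [e] at this ⊢
    linarith

/-- lower bound for the pairs -/
theorem pairs_lower (P : Finset ℕ) (x H0 H1 : ℕ) (hP : ∀ p ∈ P, p ≤ x) (hx : 1 ≤ x) (hH : 1 ≤ H0)
    (hH1 : H0 ≤ H1) :
    (P.card : ℝ) ^ 2 / (x + H1) * (Real.log (H1 + 6) - Real.log (H0 + 5)) - P.card / (H0 + 1) ≤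
      ∑ p ∈ P, ∑ q ∈ P.filter (fun q => q < p), 1 / ((p : ℝ) - q + 1) := by
  classical
  obtain ⟨M, hM⟩ : ∃ M : ℝ, M = P.card := ⟨_, rfl⟩
  have hM0 : 0 ≤ M := by rw [hM]; positivity
  have hxR : (1 : ℝ) ≤ x := by exact_mod_cast hx
  rw [← hM]
  -- the double sum
  obtain ⟨R, hR⟩ : ∃ R : ℝ, R = ∑ p ∈ P, ∑ q ∈ P.filter (fun q => q < p), 1 / ((p : ℝ) - q + 1) :=
    ⟨_, rfl⟩
  rw [← hR]
  have k1 : ∑ p ∈ P, ∑ q ∈ P, ∑ H ∈ Icc H0 H1, w H * ((min p q + H - max p q : ℕ) : ℝ) ≤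
      2 * R + M * (2 / (H0 + 1)) := by
    have hdiag : ∀ p ∈ P, ∑ q ∈ P, ∑ H ∈ Icc H0 H1, w H * ((min p q + H - max p q : ℕ) : ℝ) ≤
        ∑ q ∈ P.filter (fun q => q < p), 1 / ((p : ℝ) - q + 1) +
        ∑ q ∈ P.filter (fun q => p < q), 1 / ((q : ℝ) - p + 1) + 2 / (H0 + 1) := by
      intro p hp
      have e1 : ∑ q ∈ P, ∑ H ∈ Icc H0 H1, w H * ((min p q + H - max p q : ℕ) : ℝ) =
          ∑ q ∈ P.filter (fun q => q < p), ∑ H ∈ Icc H0 H1, w H * ((min p q + H - max p q : ℕ) : ℝ) +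
          (∑ q ∈ P.filter (fun q => p < q), ∑ H ∈ Icc H0 H1, w H * ((min p q + H - max p q : ℕ) : ℝ) +
          ∑ H ∈ Icc H0 H1, w H * ((min p p + H - max p p : ℕ) : ℝ)) := by
        rw [← Finset.sum_filter_add_sum_filter_not P (fun q => q < p)]
        congr 1
        rw [← Finset.sum_filter_add_sum_filter_not (P.filter (fun q => ¬ q < p)) (fun q => p < q)]
        congr 1
        · refine Finset.sum_congr ?_ fun _ _ => rfl
          ext q
          simp only [Finset.mem_filter]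
          constructor
          · rintro ⟨⟨a, b⟩, c⟩; exact ⟨a, c⟩
          · rintro ⟨a, b⟩; exact ⟨⟨a, by omega⟩, b⟩
        · have : (P.filter (fun q => ¬ q < p)).filter (fun q => ¬ p < q) = {p} := by
            ext q
            simp only [Finset.mem_filter, Finset.mem_singleton]
            constructor
            · rintro ⟨⟨a, b⟩, c⟩; omega
            · rintro rfl; exact ⟨⟨hp, by omega⟩, by omega⟩
          rw [this, Finset.sum_singleton]
      rw [e1]
      have e2 : ∑ q ∈ P.filter (fun q => q < p), ∑ H ∈ Icc H0 H1, w H * ((min p q + H - max p q : ℕ) : ℝ)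
          ≤ ∑ q ∈ P.filter (fun q => q < p), 1 / ((p : ℝ) - q + 1) := by
        refine Finset.sum_le_sum fun q hq => ?_
        rw [Finset.mem_filter] at hq
        have a := kernel_le (p - q) (Icc H0 H1)
        have b : ∀ H : ℕ, min p q + H - max p q = H - (p - q) := by intro H; omega
        simp only [b]
        rw [Nat.cast_sub hq.2.le] at a
        exact a
      have e3 : ∑ q ∈ P.filter (fun q => p < q), ∑ H ∈ Icc H0 H1, w H * ((min p q + H - max p q : ℕ) : ℝ)
          ≤ ∑ q ∈ P.filter (fun q => p < q), 1 / ((q : ℝ) - p + 1) := by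
        refine Finset.sum_le_sum fun q hq => ?_
        rw [Finset.mem_filter] at hq
        have a := kernel_le (q - p) (Icc H0 H1)
        have b : ∀ H : ℕ, min p q + H - max p q = H - (q - p) := by intro H; omega
        simp only [b]
        rw [Nat.cast_sub hq.2.le] at a
        exact a
      have e5 : ∑ H ∈ Icc H0 H1, w H * ((min p p + H - max p p : ℕ) : ℝ) ≤ 2 / (H0 + 1) := by
        have a : ∀ H : ℕ, min p p + H - max p p = H := by intro H; omega
        simp only [a]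
        rw [diag_sum H0 H1 hH hH1]
        have : 0 ≤ 2 / ((H1 : ℝ) + 2) := by positivity
        linarith
      linarith
    have hsym : ∑ p ∈ P, ∑ q ∈ P.filter (fun q => p < q), 1 / ((q : ℝ) - p + 1) = R := by
      rw [hR]
      simp only [Finset.sum_filter]
      rw [Finset.sum_comm]
    have := Finset.sum_le_sum hdiag
    rw [Finset.sum_add_distrib, Finset.sum_add_distrib, hsym, ← hR, Finset.sum_const, nsmul_eq_mul,
      ← hM] at this
    linarith
  have k2 : ∑ H ∈ Icc H0 H1, w H * ((M * H) ^ 2 / (x + H)) ≤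
      ∑ p ∈ P, ∑ q ∈ P, ∑ H ∈ Icc H0 H1, w H * ((min p q + H - max p q : ℕ) : ℝ) := by
    have e1 : ∑ p ∈ P, ∑ q ∈ P, ∑ H ∈ Icc H0 H1, w H * ((min p q + H - max p q : ℕ) : ℝ) =
        ∑ H ∈ Icc H0 H1, w H * ∑ p ∈ P, ∑ q ∈ P, ((min p q + H - max p q : ℕ) : ℝ) := by
      have e2 : ∀ p ∈ P, ∑ q ∈ P, ∑ H ∈ Icc H0 H1, w H * ((min p q + H - max p q : ℕ) : ℝ) =
          ∑ H ∈ Icc H0 H1, ∑ q ∈ P, w H * ((min p q + H - max p q : ℕ) : ℝ) :=
        fun p _ => Finset.sum_comm
      rw [Finset.sum_congr rfl e2, Finset.sum_comm]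
      refine Finset.sum_congr rfl fun H _ => ?_
      rw [Finset.mul_sum]
      refine Finset.sum_congr rfl fun p _ => ?_
      rw [Finset.mul_sum]
    rw [e1]
    refine Finset.sum_le_sum fun H _ => mul_le_mul_of_nonneg_left ?_ (w_nonneg H)
    have e3 := window P x H hP
    rw [← hM] at e3
    rw [div_le_iff₀ (by positivity)]
    exact e3.trans (le_of_eq (mul_comm _ _))
  have k3 : ∑ H ∈ Icc H0 H1, (2 * (M ^ 2 / (x + H1))) * (1 / ((H : ℝ) + 5)) ≤
      ∑ H ∈ Icc H0 H1, w H * ((M * H) ^ 2 / (x + H)) := by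
    refine Finset.sum_le_sum fun H hH' => ?_
    rw [Finset.mem_Icc] at hH'
    have hHR : (1 : ℝ) ≤ H := by exact_mod_cast hH.trans hH'.1
    have hH1R : (H : ℝ) ≤ H1 := by exact_mod_cast hH'.2
    have e1 : w H * ((M * H) ^ 2 / (x + H)) =
        (2 * (M ^ 2 / (x + H))) * ((H : ℝ) / ((H + 1) * (H + 2))) := by
      unfold w
      field_simp
    rw [e1]
    refine mul_le_mul ?_ ?_ (by positivity) (by positivity)
    · refine mul_le_mul_of_nonneg_left ?_ (by norm_num)
      exact div_le_div_of_nonneg_left (by positivity) (by positivity) (by linarith)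
    · rw [div_le_div_iff₀ (by positivity) (by positivity)]
      nlinarith
  rw [← Finset.mul_sum] at k3
  have k4 := log_sum H0 H1 hH1
  have k5 : (2 * (M ^ 2 / (x + H1))) * (Real.log ((H1 : ℝ) + 6) - Real.log ((H0 : ℝ) + 5)) ≤
      (2 * (M ^ 2 / (x + H1))) * ∑ H ∈ Icc H0 H1, 1 / ((H : ℝ) + 5) :=
    mul_le_mul_of_nonneg_left k4 (by positivity)
  have k6 : M * (2 / ((H0 : ℝ) + 1)) = 2 * (M / (H0 + 1)) := by ring
  rw [k6] at k1
  linarith

end Pool.Agent.L7h22.LS
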